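import Pool.Agent.MWV.Stmts

/-!
# FIL: free insertion for an arbitrary set of heavy letters
-/

set_option autoImplicit false

namespace Pool.Agent.MWV.H67

open Pool.Agent.Helper14_MV Pool.Agent.Helper2_MV Pool.Agent.MWV

/-- renaming of the letters -/
def enc (H : ℕ → Bool) (a : ℕ) : ℕ := if H a then 3 * a else 3 * a + 1

theorem enc_div (H : ℕ → Bool) (a : ℕ) : enc H a / 3 = a := by
  unfold enc
  split_ifs <;> omega

theorem enc_inj (H : ℕ → Bool) : Function.Injective (enc H) := by
  intro a b h
  rw [← enc_div H a, ← enc_div H b, h]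

theorem enc_heavy {H : ℕ → Bool} {a : ℕ} (h : H a = true) : enc H a % 3 = 0 := by
  unfold enc
  rw [if_pos h]
  omega

theorem enc_light {H : ℕ → Bool} {a : ℕ} (h : H a = false) : enc H a % 3 = 1 := by
  unfold enc
  rw [if_neg (by rw [h]; simp)]
  omega

theorem lgt_enc (H : ℕ → Bool) (L : List ℕ) :
    lgt (L.map (enc H)) = (L.filter (fun c => !H c)).map (enc H) := by
  induction L with
  | nil => rfl
  | cons c L ih =>
    unfold lgt at ih ⊢
    rw [List.map_cons, List.filter_cons, List.filter_cons, ih]
    rcases hc : H c with _ | _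
    · have h1 := enc_light hc
      rw [if_pos (by rw [h1]; decide), if_pos (by decide)]
      rfl
    · have h1 := enc_heavy hc
      rw [if_neg (by rw [h1]; decide), if_neg (by decide)]

theorem dd_enc (n : ℕ) (H : ℕ → Bool) (L : List ℕ) :
    dd n (L.map (enc H)) = (dh n H L).map (enc H) := by
  induction L with
  | nil => rfl
  | cons c L ih =>
    unfold dd dh at ih ⊢
    rw [List.map_cons, List.flatMap_cons, List.flatMap_cons, ih, List.map_append]
    rcases hc : H c with _ | _
    · have h1 := enc_light hc
      rw [if_neg (by rw [h1]; decide), if_neg (by decide)]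
      rfl
    · have h1 := enc_heavy hc
      rw [if_pos h1, if_pos rfl, List.map_replicate]

theorem dec_enc (H : ℕ → Bool) (L : List ℕ) :
    (L.map (enc H)).flatMap (fun b => [b / 3]) = L := by
  induction L with
  | nil => rfl
  | cons c L ih =>
    rw [List.map_cons, List.flatMap_cons, ih, enc_div]
    rfl

theorem fil (wob : WobStmt) (top : TopStmt) : FilStmt := by
  intro β n hn hM hI h2 hc H p q a b h hh hnd hout
  obtain ⟨w1, w2, w3⟩ := wob β n hn h2 hc hI
  have hf := top n β hM w1 w2 w3 (lgt (a.map (enc H) ++ b.map (enc H))).length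
  have hl : lgt (a.map (enc H) ++ b.map (enc H)) =
      ((a ++ b).filter (fun c => !H c)).map (enc H) := by
    rw [← List.map_append, lgt_enc]
  have key := hf (p.map (enc H)) (q.map (enc H)) (a.map (enc H)) (b.map (enc H)) (enc H h)
    (enc_heavy hh) (le_refl _) (by rw [hl]; exact hnd.map (enc_inj H)) (by
      intro c hc' hc3
      rw [← List.map_append, List.mem_map] at hc'
      obtain ⟨c0, hc0, rfl⟩ := hc'
      have hH : H c0 = false := by
        rcases h' : H c0 with _ | _
        · rfl
        · exact (hc3 (enc_heavy h')).elim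
      rcases hout c0 hc0 hH with h' | h'
      · exact Or.inl (List.mem_map_of_mem h')
      · exact Or.inr (List.mem_map_of_mem h'))
  have e1 : p.map (enc H) ++ enc H h :: (a.map (enc H) ++ (b.map (enc H) ++ enc H h ::
      q.map (enc H))) = (p ++ h :: (a ++ (b ++ h :: q))).map (enc H) := by
    simp only [List.map_append, List.map_cons]
  have e2 : p.map (enc H) ++ enc H h :: (a.map (enc H) ++ (X n (enc H h) ++ (b.map (enc H) ++
      enc H h :: q.map (enc H)))) = (p ++ h :: (a ++ (X n h ++ (b ++ h :: q)))).map (enc H) := by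
    simp only [List.map_append, List.map_cons, List.map_replicate]
  rw [e1, e2] at key
  unfold SS at key
  rw [dd_enc, dd_enc] at key
  have := RR.sub (fun b => [b / 3]) key
  rwa [dec_enc, dec_enc] at this

end Pool.Agent.MWV.H67
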