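import Pool.Agent.MWV.Stmts

/-!
# STS: the steps with moved letter `y` do not change the class of the word with `L_x`
-/

set_option autoImplicit false

namespace Pool.Agent.MWV.H67

open Pool.Agent.Helper14_MV Pool.Agent.Helper2_MV Pool.Agent.MWV

theorem im_app (N : ℕ) (f : ℕ → List ℕ) (a b : List ℕ) :
    im N f (a ++ b) = im N f a ++ im N f b := by
  unfold im
  exact List.flatMap_append

theorem im_cons (N : ℕ) (f : ℕ → List ℕ) (c : ℕ) (b : List ℕ) :
    im N f (c :: b) = (if c % 3 = 0 then (List.replicate (N + 1) (f c)).flatten else f c) ++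
      im N f b := by
  unfold im
  exact List.flatMap_cons

theorem Ib_nil : ∀ {u v w : List ℕ}, w = [] → Ib w u v → u = v := by
  intro u v w hw h
  induction h with
  | nil => rfl
  | cons a _ ih => rw [ih]
  | ins _ ih => rw [ih, hw]; rfl

/-- the letters of the image of `m^N` -/
theorem mem_imX {N m : ℕ} {f : ℕ → List ℕ} {a : ℕ} (hm : m % 3 = 0)
    (h : a ∈ im N f (X N m)) : a ∈ f m := by
  unfold im at h
  rw [List.mem_flatMap] at h
  obtain ⟨c, hc, hac⟩ := h
  have hcm : c = m := List.eq_of_mem_replicate hc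
  subst hcm
  rw [if_pos hm] at hac
  rw [List.mem_flatten] at hac
  obtain ⟨l, hl, hal⟩ := hac
  rw [List.eq_of_mem_replicate hl] at hal
  exact hal

theorem mem_imX' {N m : ℕ} {f : ℕ → List ℕ} {a : ℕ} (hN : 1 ≤ N) (hm : m % 3 = 0)
    (h : a ∈ f m) : a ∈ im N f (X N m) := by
  unfold im
  rw [List.mem_flatMap]
  refine ⟨m, List.mem_replicate.2 ⟨by omega, rfl⟩, ?_⟩
  rw [if_pos hm, List.mem_flatten]
  exact ⟨f m, List.mem_replicate.2 ⟨by omega, rfl⟩, h⟩

theorem count_flat (n : ℕ) (l : List ℕ) (a : ℕ) :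
    (List.replicate n l).flatten.count a = n * l.count a := by
  induction n with
  | zero => simp
  | succ n ih =>
    rw [List.replicate_succ, List.flatten_cons, List.count_append, ih]
    ring

theorem count_imX {N m : ℕ} {f : ℕ → List ℕ} (hm : m % 3 = 0) (a : ℕ) :
    (im N f (X N m)).count a % N = 0 := by
  have key : ∀ j : ℕ, (im N f (List.replicate j m)).count a = j * ((N + 1) * (f m).count a) := by
    intro j
    induction j with
    | zero => simp [im]
    | succ j ih =>
      rw [List.replicate_succ, im_cons, if_pos hm, List.count_append, ih, count_flat]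
      ring
  rw [key N]
  exact Nat.mul_mod_right _ _

theorem mem_pl {P : List ℕ} {e : ℕ} (h : e ∈ P) : 3 * e + 1 ∈ pl P := by
  unfold pl
  rw [List.mem_flatMap]
  exact ⟨e, h, by simp⟩

theorem mem_pr {P : List ℕ} {e : ℕ} (h : e ∈ P) : 3 * e + 1 ∈ pr P := by
  unfold pr
  rw [List.mem_flatMap]
  exact ⟨e, h, by simp⟩

/-- case 1 of `Gd` for a part of an admissible main block -/
theorem gd1 {N : ℕ} {S : List ℕ → List ℕ → Prop} {P' Q' L1 a1 ν b1 A B : List ℕ} {k h : ℕ}
    (hok : Ok P' Q' L1) (hL : L1 = a1 ++ (ν ++ b1)) (hA : ∀ c ∈ pl P', c ∈ A)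
    (hB : ∀ c ∈ pr Q', c ∈ B) (hk : (lgt ν).length ≤ k) : Gd N S k A B h ν := by
  left
  refine ⟨hk, ?_, ?_⟩
  · rw [List.nodup_iff_count_le_one]
    intro c
    by_cases hc : c ∈ lgt ν
    · have hcν : c ∈ ν := (List.mem_filter.1 hc).1
      have hc3 : c % 3 ≠ 0 := by simpa using (List.mem_filter.1 hc).2
      have hcL : c ∈ L1 := by rw [hL]; simp [hcν]
      rcases hok.mem c hcL with h0 | ⟨e, he, rfl⟩
      · exact (hc3 h0).elim
      · have h1 := hok.one e he
        have h2 : (lgt ν).count (3 * e + 1) ≤ ν.count (3 * e + 1) :=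
          List.filter_sublist.count_le _
        rw [hL, List.count_append, List.count_append] at h1
        omega
    · rw [List.count_eq_zero_of_not_mem hc]
      omega
  · intro c hc hc3
    have hcL : c ∈ L1 := by rw [hL]; simp [hc]
    rcases hok.mem c hcL with h0 | ⟨e, he, rfl⟩
    · exact (hc3 h0).elim
    · rcases List.mem_append.1 he with he | he
      · exact Or.inl (hA _ (mem_pl he))
      · exact Or.inr (hB _ (mem_pr he))

/-- the inner part -/
abbrev muY (N : ℕ) (g : ℕ → Bool) (k : ℕ) (s : List ℕ) : List ℕ :=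
  cr g s 1 k ++ (X N 0 ++ [3 * (k + 2) + 1])

theorem expand (N : ℕ) (f : ℕ → List ℕ) (P' Q' : List ℕ) (g : ℕ → Bool) (k : ℕ)
    (s p q : List ℕ) :
    p ++ (im N f (W P' Q' (Lp N g s k)) ++ q) =
      (p ++ (im N f (pl P') ++ (f 2 ++ im N f (X N 0 ++ [1])))) ++ (im N f (X N 3) ++
        (im N f (muY N g k s) ++ (im N f (X N 3) ++ (im N f [] ++ (f 5 ++
          (im N f (pr Q') ++ q)))))) := by
  have e2 : ∀ L, im N f (2 :: L) = f 2 ++ im N f L := fun L => by
    rw [im_cons, if_neg (by decide)]
  have e5 : ∀ L, im N f (5 :: L) = f 5 ++ im N f L := fun L => by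
    rw [im_cons, if_neg (by decide)]
  have e1 : ∀ L, im N f (1 :: L) = f 1 ++ im N f L := fun L => by
    rw [im_cons, if_neg (by decide)]
  have ez : ∀ L, im N f ((3 * (k + 2) + 1) :: L) = f (3 * (k + 2) + 1) ++ im N f L := fun L => by
    rw [im_cons, if_neg (by omega)]
  have e0 : im N f [] = [] := rfl
  unfold W Lp muY
  simp only [im_app, e2, e5, e1, ez, e0, List.append_assoc, List.nil_append, List.append_nil]

theorem frame (N : ℕ) (P' Q' : List ℕ) (g : ℕ → Bool) (k : ℕ) (s : List ℕ) :
    W P' Q' (Lp N g s k) = W P' Q' ((X N 0 ++ [1]) ++ (X N 3 ++ (muY N g k s ++ (X N 3 ++ [])))) := by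
  unfold W Lp muY
  simp only [List.append_assoc, List.nil_append, List.append_nil, List.cons_append]

theorem sts (ppm : PpmStmt) (lbk : LbkStmt) (dcb : DcbStmt) (frm : FrmStmt) (mrk : MrkStmt)
    (cov : CovStmt) (sig : SigStmt) (gtr : GtrStmt) (gst : GstStmt) (cln : ClnStmt)
    (ibm : IbmStmt) : StsStmt := by
  intro N S P Q g k f p q s hyp hs hor
  have hN : 1 ≤ N := hyp.wo.pos
  have hIb : Ib (im N f (X N 3)) (im N f (muY N g k s)) (im N f (muY N g k (s ++ X N 3))) := by
    have := ibm N f g 3 k 1 s [] [] (X N 0 ++ [3 * (k + 2) + 1])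
    rw [List.append_nil, List.append_nil] at this
    exact this
  by_cases hf3 : f 3 = []
  · have hw : im N f (X N 3) = [] := by
      rw [List.eq_nil_iff_forall_not_mem]
      intro a ha
      have := mem_imX (N := N) (m := 3) (f := f) (by decide) ha
      rw [hf3] at this
      simp at this
    have he := Ib_nil hw hIb
    rw [expand, expand, he]
    exact hyp.wo.refl _
  have hpp := (ppm k P Q hyp.kp hyp.pm).1
  have hnd : (PP k P ++ PP k Q).Nodup := hpp.nodup_iff.2 List.nodup_range
  -- the claim for one word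
  have claim : ∀ s' : List ℕ, (∀ a ∈ s', a % 3 = 0) →
      S (Wb N P Q g k 0) (p ++ (im N f (W (PP k P) (PP k Q) (Lp N g s' k)) ++ q)) →
      ∃ α1 γ1 : List ℕ,
        p ++ (im N f (pl (PP k P)) ++ (f 2 ++ im N f (X N 0 ++ [1]))) =
          pl (PP k P) ++ 2 :: α1 ∧
        im N f [] ++ (f 5 ++ (im N f (pr (PP k Q)) ++ q)) = γ1 ++ 5 :: pr (PP k Q) ∧
        (∀ a ∈ f 3, a % 3 = 0) ∧
        ∀ h ∈ im N f (X N 3), Gd N S k (pl (PP k P) ++ 2 :: α1) (γ1 ++ 5 :: pr (PP k Q)) h
          (im N f (muY N g k s')) := by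
    intro s' hs' hS
    obtain ⟨L1, hV, hok, hcont⟩ := dcb N S P Q g k 0 _ hyp (by omega) hS
    have hV' := hV
    rw [frame] at hV'
    obtain ⟨α1, γ1, hfr, hL1, hα, hγ, hA, hB⟩ := frm N f (PP k P) (PP k Q) 3 (muY N g k s')
      (X N 0 ++ [1]) [] p q L1 hN hnd (by decide) hf3 hok hV'
    refine ⟨α1, γ1, hA, hB, hfr.hf, ?_⟩
    intro h hh
    have hh3 : h % 3 = 0 := hfr.hf h (mem_imX (N := N) (m := 3) (f := f) (by decide) hh)
    obtain ⟨x1, x2, hx⟩ := List.append_of_mem hh
    have hxh : ∀ a ∈ x2 ++ x1, a % 3 = 0 := by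
      intro a ha
      refine hfr.hf a (mem_imX (N := N) (m := 3) (f := f) (by decide) ?_)
      rw [hx]
      rcases List.mem_append.1 ha with ha | ha
      · simp [ha]
      · simp [ha]
    have hL2 : L1 = (α1 ++ x1) ++ h :: ((x2 ++ (im N f (muY N g k s') ++ x1)) ++
        h :: (x2 ++ γ1)) := by
      rw [hL1, hx]
      simp only [List.append_assoc, List.cons_append]
    have hS2 : S (Wb N P Q g k 0) (W (PP k P) (PP k Q) ((α1 ++ x1) ++ h ::
        ((x2 ++ (im N f (muY N g k s') ++ x1)) ++ h :: (x2 ++ γ1)))) := by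
      rw [← hL2, ← hV]
      exact hS
    have hhL : h ∈ L1 := by rw [hL2]; simp
    rcases ((lbk N g k 0 P Q hN hyp.kp (by omega) hyp.pm).2.1 h hh3).1 ((hcont h).1 hhL) with
      h0 | ⟨j, hj1, hjk, hgj, hj⟩
    · -- the letter 0
      rw [Nat.mul_zero] at h0
      subst h0
      by_cases hlen : (lgt (im N f (muY N g k s'))).length ≤ k
      · refine gd1 (a1 := α1 ++ im N f (X N 3)) (b1 := im N f (X N 3) ++ γ1) hok ?_ ?_ ?_ hlen
        · rw [hL1]
          simp only [List.append_assoc]
        · intro c hc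
          simp [hc]
        · intro c hc
          simp [hc]
      · exfalso
        have hlg : lgt (x2 ++ (im N f (muY N g k s') ++ x1)) = lgt (im N f (muY N g k s')) := by
          unfold lgt
          rw [List.filter_append, List.filter_append]
          have e1 : x2.filter (fun a => decide (a % 3 ≠ 0)) = [] := by
            rw [List.filter_eq_nil_iff]
            intro a ha
            simp [hxh a (List.mem_append_left _ ha)]
          have e2 : x1.filter (fun a => decide (a % 3 ≠ 0)) = [] := by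
            rw [List.filter_eq_nil_iff]
            intro a ha
            simp [hxh a (List.mem_append_right _ ha)]
          rw [e1, e2, List.nil_append, List.append_nil]
        have hcov := cov N S P Q g k 0 (α1 ++ x1) (x2 ++ (im N f (muY N g k s') ++ x1))
          (x2 ++ γ1) hyp (by omega) hS2 (by rw [hlg]; omega)
        refine sig N S P Q g k f s' α1 γ1 hyp hs' hfr ?_ ?_ ?_
        · have : S (Wb N P Q g k 0) (W (PP k P) (PP k Q) L1) := by
            rw [← hV]
            exact hS
          rw [hL1] at this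
          exact this
        · intro a ha ha3
          refine hα a ?_ ha3
          rw [im_app]
          exact List.mem_append_left _ (mem_imX' hN (by decide) ha)
        · intro i hi
          have h1 := hcov i (by omega) (by omega)
          rcases List.mem_append.1 h1 with h2 | h2
          · have := hxh _ (List.mem_append_left _ h2)
            omega
          · rcases List.mem_append.1 h2 with h3 | h3
            · exact h3
            · have := hxh _ (List.mem_append_right _ h3)
              omega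
    · -- a marker
      subst hj
      have hm := mrk N S P Q g k 0 j (α1 ++ x1) (x2 ++ (im N f (muY N g k s') ++ x1))
        (x2 ++ γ1) hyp (by omega) hj1 hjk hgj hS2
      refine gtr N S k _ _ _ _ (3 * j + 3) x2 (im N f (muY N g k s')) x1 ?_ ?_ hxh hm
      · intro a ha ha3
        simp only [List.mem_append, List.mem_cons] at ha ⊢
        rcases ha with ha | ha | ha | ha
        · exact Or.inl ha
        · exact Or.inr (Or.inl ha)
        · exact Or.inr (Or.inr ha)
        · exact (ha3 (hxh a (List.mem_append_right _ ha))).elim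
      · intro a ha ha3
        simp only [List.mem_append, List.mem_cons] at ha ⊢
        rcases ha with (ha | ha) | ha | ha
        · exact (ha3 (hxh a (List.mem_append_left _ ha))).elim
        · exact Or.inl ha
        · exact Or.inr (Or.inl ha)
        · exact Or.inr (Or.inr ha)
  have hs3 : ∀ a ∈ s, a % 3 = 0 := by
    intro a ha
    rcases hs with rfl | rfl
    · simp at ha
    · rw [List.eq_of_mem_replicate ha]
  have hs3' : ∀ a ∈ s ++ X N 3, a % 3 = 0 := by
    intro a ha
    rcases List.mem_append.1 ha with ha | ha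
    · exact hs3 a ha
    · rw [List.eq_of_mem_replicate ha]
  have fin : ∀ α1 γ1 : List ℕ,
      p ++ (im N f (pl (PP k P)) ++ (f 2 ++ im N f (X N 0 ++ [1]))) =
          pl (PP k P) ++ 2 :: α1 →
      im N f [] ++ (f 5 ++ (im N f (pr (PP k Q)) ++ q)) = γ1 ++ 5 :: pr (PP k Q) →
      (∀ a ∈ f 3, a % 3 = 0) →
      (∀ h ∈ im N f (X N 3), Gd N S k (pl (PP k P) ++ 2 :: α1) (γ1 ++ 5 :: pr (PP k Q)) h
          (im N f (muY N g k s))) →
      S (p ++ (im N f (W (PP k P) (PP k Q) (Lp N g s k)) ++ q))
        (p ++ (im N f (W (PP k P) (PP k Q) (Lp N g (s ++ X N 3) k)) ++ q)) := by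
    intro α1 γ1 hA hB hf hG
    rw [expand, expand, hA, hB]
    exact cln N S hyp.wo k hyp.fr _ _ _ _ _ _ (fun a ha => hf a (mem_imX (N := N) (m := 3) (f := f) (by decide) ha))
      (fun a ha => ha) (fun a => count_imX (m := 3) (f := f) (by decide) a) hIb hG
  rcases hor with h | h
  · obtain ⟨α1, γ1, hA, hB, hf, hG⟩ := claim s hs3 h
    exact fin α1 γ1 hA hB hf hG
  · obtain ⟨α1, γ1, hA, hB, hf, hG⟩ := claim (s ++ X N 3) hs3' h
    refine fin α1 γ1 hA hB hf (fun h hh => ?_)
    exact (gst N S k _ _ h _ _ _ hIb (fun a ha => hf a (mem_imX (N := N) (m := 3) (f := f) (by decide) ha))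
      (fun a => count_imX (m := 3) (f := f) (by decide) a)).2 (hG h hh)

end Pool.Agent.MWV.H67
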