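import Pool.Agent.MWV.Stmts

/-!
# TOP: free insertion
-/

set_option autoImplicit false

namespace Pool.Agent.MWV.H67

open Pool.Agent.Helper14_MV Pool.Agent.Helper2_MV Pool.Agent.MWV

theorem top (fr1 : Fr1Stmt) (frs : FrsStmt) (fca : FcaStmt) (fcb : FcbStmt) (unq : UnqStmt)
    (rem : RemStmt) (pen : PenStmt) : TopStmt := by
  intro N β hM hW h1 h2 k
  induction k with
  | zero =>
    intro p q a b h hh hl hn ho
    exact fr1 N _ hW p q a b h hh (by omega) hn ho
  | succ k ih =>
    rcases Nat.eq_zero_or_pos k with rfl | hk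
    · exact fr1 N _ hW
    · refine frs N _ hW k hk ih ?_
      intro P Q hpm
      by_contra hrun
      have g1 : Gone (fun _ => true) k := fun i j _ _ _ _ h _ => by simp at h
      obtain ⟨a1, a2, a3, a4⟩ := fca N _ P Q _ k hW hk ih hpm g1 hrun
      obtain ⟨b1, b2, b3⟩ := fcb N _ P Q _ k hW hk ih hpm g1 hrun a1 a2
      have hF : Fct N (SS N β) Q k := ⟨a1, a2, a3, a4, b1, b2, b3⟩
      by_cases hex : ∃ j, 1 ≤ j ∧ j ≤ k ∧ Full N (SS N β) P Q k j
      · obtain ⟨j, hj1, hjk, hFull⟩ := hex
        have hnr : ¬ Run N (SS N β) P Q (fun i => decide (i ≠ j)) k := fun h =>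
          hrun (rem N _ hW P Q k j hk ih hpm hj1 hjk hFull.2.2 h)
        refine pen N β hM h1 h2 P Q (fun i => decide (i ≠ j)) k
          ⟨hW, hk, ih, hpm, ?_, hF, ?_, hnr⟩
        · intro i i' _ _ _ _ hi hi'
          have e1 : i = j := by simpa using hi
          have e2 : i' = j := by simpa using hi'
          rw [e1, e2]
        · intro i hi1 hik
          constructor
          · intro hi hfi
            have e1 : i ≠ j := by simpa using hi
            exact e1 (unq N _ P Q k i j a1 a2 hi1 hik hj1 hjk hfi hFull)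
          · intro hi
            have e1 : i ≠ j := by
              rintro rfl
              exact hi hFull
            simpa using e1
      · refine pen N β hM h1 h2 P Q (fun _ => true) k ⟨hW, hk, ih, hpm, g1, hF, ?_, hrun⟩
        intro i hi1 hik
        refine ⟨fun _ hfi => hex ⟨i, hi1, hik, hfi⟩, fun _ => rfl⟩

end Pool.Agent.MWV.H67
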